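import Pool.Agent.Q164.BlStep
import Mathlib.Analysis.Complex.LocallyUniformLimit
import Mathlib.Analysis.Analytic.IsolatedZeros
import Mathlib.Analysis.Convex.PathConnected
import Mathlib.Analysis.PSeries
import Mathlib.Analysis.Complex.CauchyIntegral

/-!
The real zeros of `∑ a_n / (t^2 + n^2)`, `a_n = ±1`, have density zero.
-/

namespace Pool.Agent.Results.MP_51e19e_an.SublinearZeros

open Filter Topology Metric Set

/-- `f_a(t) = ∑_{n ≥ 1} a_n / (t^2 + n^2)`. -/
noncomputable def f (a : ℕ → ℝ) (t : ℝ) : ℝ := ∑' n : ℕ, a (n + 1) / (t ^ 2 + ((n : ℝ) + 1) ^ 2)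

/-- The number of distinct real zeros in `(-X, X)`. -/
noncomputable def Z (a : ℕ → ℝ) (X : ℝ) : ℕ := {t : ℝ | |t| < X ∧ f a t = 0}.ncard

/-- Terms of the complexified series. -/
noncomputable def T (a : ℕ → ℝ) (n : ℕ) (z : ℂ) : ℂ := (a (n + 1) : ℂ) / (z ^ 2 + ((n : ℂ) + 1) ^ 2)

noncomputable def F (a : ℕ → ℝ) (z : ℂ) : ℂ := ∑' n : ℕ, T a n z

theorem F_ofReal (a : ℕ → ℝ) (t : ℝ) : F a t = (f a t : ℂ) := by
  rw [F, f, Complex.ofReal_tsum]
  congr 1
  funext n
  rw [T]
  push_cast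
  rfl

section

variable {a : ℕ → ℝ} (ha : ∀ n, 1 ≤ n → a n = 1 ∨ a n = -1)

include ha

theorem norm_a (n : ℕ) : ‖(a (n + 1) : ℂ)‖ = 1 := by
  rw [Complex.norm_real, Real.norm_eq_abs]
  rcases ha (n + 1) (by omega) with h | h <;> rw [h] <;> simp

theorem T_bound_ball {R : ℝ} (hR : 0 ≤ R) {z : ℂ} (hz : ‖z‖ ≤ R) {n : ℕ} (hn : 2 * R ≤ n + 1) :
    ‖T a n z‖ ≤ 4 / 3 * (1 / ((n : ℝ) + 1) ^ 2) := by
  have hn1 : (0 : ℝ) < (n : ℝ) + 1 := by positivity
  have h1 : 3 / 4 * ((n : ℝ) + 1) ^ 2 ≤ ‖z ^ 2 + ((n : ℂ) + 1) ^ 2‖ := by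
    have h2 := norm_sub_norm_le (((n : ℂ) + 1) ^ 2) (-z ^ 2)
    rw [sub_neg_eq_add, add_comm (((n : ℂ) + 1) ^ 2), norm_neg, norm_pow, norm_pow] at h2
    have h3 : ‖(n : ℂ) + 1‖ = (n : ℝ) + 1 := by
      have : ((n : ℂ) + 1) = (((n : ℝ) + 1 : ℝ) : ℂ) := by push_cast; ring
      rw [this, Complex.norm_real, Real.norm_eq_abs, abs_of_pos hn1]
    rw [h3] at h2
    have h4 : ‖z‖ ^ 2 ≤ 1 / 4 * ((n : ℝ) + 1) ^ 2 := by
      have : ‖z‖ ≤ ((n : ℝ) + 1) / 2 := by linarith
      nlinarith [norm_nonneg z]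
    linarith
  rw [T, norm_div, norm_a ha]
  rw [div_le_iff₀ (lt_of_lt_of_le (by positivity) h1)]
  have h5 : 4 / 3 * (1 / ((n : ℝ) + 1) ^ 2) * (3 / 4 * ((n : ℝ) + 1) ^ 2) = 1 := by
    field_simp
  calc (1 : ℝ) = _ := h5.symm
    _ ≤ _ := mul_le_mul_of_nonneg_left h1 (by positivity)

omit ha in
theorem summable_sq : Summable fun n : ℕ => 1 / ((n : ℝ) + 1) ^ 2 := by
  have h := (summable_nat_add_iff 1).2 (Real.summable_one_div_nat_pow.2 (one_lt_two))
  simpa using h

theorem T_summable (z : ℂ) : Summable fun n => T a n z := by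
  obtain ⟨N, hN⟩ := exists_nat_ge (2 * ‖z‖)
  rw [← summable_nat_add_iff N]
  apply Summable.of_norm_bounded (g := fun n : ℕ => 4 / 3 * (1 / (((n + N : ℕ) : ℝ) + 1) ^ 2))
  · exact ((summable_nat_add_iff N).2 summable_sq).mul_left _
  · intro n
    apply T_bound_ball ha (norm_nonneg z) le_rfl
    push_cast
    have : (0 : ℝ) ≤ n := Nat.cast_nonneg n
    linarith

/-- The domain. -/
def U : Set ℂ := {z | z.re ≠ 0 ∨ |z.im| < 1}

omit ha in
theorem U_open : IsOpen U := by
  have h : U = {z : ℂ | z.re ≠ 0} ∪ {z : ℂ | |z.im| < 1} := rfl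
  rw [h]
  apply IsOpen.union
  · exact isOpen_ne_fun Complex.continuous_re continuous_const
  · exact isOpen_lt (Complex.continuous_im.abs) continuous_const

omit ha in
theorem U_preconnected : IsPreconnected U := by
  have h : StarConvex ℝ (0 : ℂ) U := by
    rw [starConvex_zero_iff]
    intro z hz s hs0 hs1
    rcases eq_or_lt_of_le hs0 with h | h
    · right
      rw [← h]
      simp
    · rcases hz with hz | hz
      · left
        simp only [Complex.real_smul, Complex.mul_re, Complex.ofReal_re, Complex.ofReal_im,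
          zero_mul, sub_zero]
        exact mul_ne_zero h.ne' hz
      · right
        simp only [Complex.real_smul, Complex.mul_im, Complex.ofReal_re, Complex.ofReal_im,
          zero_mul, add_zero]
        rw [abs_mul, abs_of_pos h]
        calc s * |z.im| ≤ 1 * |z.im| := mul_le_mul_of_nonneg_right hs1 (abs_nonneg _)
          _ < 1 := by rw [one_mul]; exact hz
  exact (h.isPathConnected (by right; simp)).isConnected.isPreconnected

omit ha in
theorem denom_ne {z : ℂ} (hz : z ∈ U) (n : ℕ) : z ^ 2 + ((n : ℂ) + 1) ^ 2 ≠ 0 := by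
  intro h
  have hre := congrArg Complex.re h
  have him := congrArg Complex.im h
  have e : ((n : ℂ) + 1) ^ 2 = ((((n : ℝ) + 1) ^ 2 : ℝ) : ℂ) := by push_cast; ring
  rw [e] at hre him
  simp only [Complex.add_re, Complex.add_im, Complex.ofReal_re, Complex.ofReal_im, add_zero,
    sq z, Complex.mul_re, Complex.mul_im, Complex.zero_re, Complex.zero_im] at hre him
  have hn : (1 : ℝ) ≤ ((n : ℝ) + 1) ^ 2 := by
    have : (0 : ℝ) ≤ n := Nat.cast_nonneg n
    nlinarith
  have h1 : z.re * z.im = 0 := by linarith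
  rcases mul_eq_zero.1 h1 with h2 | h2
  · rcases hz with hz | hz
    · exact hz h2
    · rw [h2] at hre
      have h3 : z.im * z.im < 1 := by
        have := (sq_lt_one_iff_abs_lt_one z.im).2 hz
        nlinarith
      linarith
  · rw [h2] at hre
    nlinarith [mul_self_nonneg z.re]

theorem F_differentiableAt {z : ℂ} (hz : z ∈ U) : DifferentiableAt ℂ (F a) z := by
  set R : ℝ := ‖z‖ + 1 with hR
  have hR0 : 0 ≤ R := by positivity
  obtain ⟨N, hN⟩ := exists_nat_ge (2 * R)
  have e : F a = fun w => ∑ n ∈ Finset.range N, T a n w + ∑' n : ℕ, T a (n + N) w := by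
    funext w
    exact ((T_summable ha w).sum_add_tsum_nat_add N).symm
  rw [e]
  apply DifferentiableAt.add
  · apply DifferentiableAt.fun_sum
    intro n _
    unfold T
    have := denom_ne hz n
    fun_prop (disch := assumption)
  · have hb : ∀ (n : ℕ) (w : ℂ), w ∈ ball (0 : ℂ) R →
        ‖T a (n + N) w‖ ≤ 4 / 3 * (1 / (((n + N : ℕ) : ℝ) + 1) ^ 2) := by
      intro n w hw
      rw [mem_ball_zero_iff] at hw
      apply T_bound_ball ha hR0 hw.le
      push_cast
      have : (0 : ℝ) ≤ n := Nat.cast_nonneg n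
      linarith
    have hd := Complex.differentiableOn_tsum_of_summable_norm
      (((summable_nat_add_iff N).2 summable_sq).mul_left (4 / 3 : ℝ))
      (F := fun n w => T a (n + N) w) (U := ball 0 R) (by
        intro n w hw
        apply DifferentiableAt.differentiableWithinAt
        unfold T
        have hne : w ^ 2 + (((n + N : ℕ) : ℂ) + 1) ^ 2 ≠ 0 := by
          intro h0
          have hn1 : (0 : ℝ) < ((n + N : ℕ) : ℝ) + 1 := by positivity
          rw [mem_ball_zero_iff] at hw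
          have h1 : w ^ 2 = -(((n + N : ℕ) : ℂ) + 1) ^ 2 := by linear_combination h0
          have h2 := congrArg norm h1
          rw [norm_neg, norm_pow, norm_pow] at h2
          have h3 : ‖(((n + N : ℕ) : ℂ) + 1)‖ = ((n + N : ℕ) : ℝ) + 1 := by
            have : (((n + N : ℕ) : ℂ) + 1) = ((((n + N : ℕ) : ℝ) + 1 : ℝ) : ℂ) := by
              push_cast; ring
            rw [this, Complex.norm_real, Real.norm_eq_abs, abs_of_pos hn1]
          rw [h3] at h2
          have h4 : ‖w‖ = ((n + N : ℕ) : ℝ) + 1 :=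
            (pow_left_inj₀ (norm_nonneg _) hn1.le two_ne_zero).1 h2
          push_cast at h4
          have : (0 : ℝ) ≤ n := Nat.cast_nonneg n
          linarith
        fun_prop (disch := assumption)) isOpen_ball hb
    exact (hd z (by rw [mem_ball_zero_iff]; linarith)).differentiableAt
      (isOpen_ball.mem_nhds (by rw [mem_ball_zero_iff]; linarith))

theorem F_analytic : AnalyticOnNhd ℂ (F a) U :=
  DifferentiableOn.analyticOnNhd (fun _ hz => (F_differentiableAt ha hz).differentiableWithinAt)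
    U_open

theorem F_not_zero : ¬ EqOn (F a) 0 U := by
  intro h0
  set D : ℝ := ∑' n : ℕ, 4 / 3 * (1 / (((n + 1 : ℕ) : ℝ) + 1) ^ 2) with hD
  have hsum : Summable fun n : ℕ => 4 / 3 * (1 / (((n + 1 : ℕ) : ℝ) + 1) ^ 2) :=
    ((summable_nat_add_iff 1).2 summable_sq).mul_left _
  have hD0 : 0 ≤ D := tsum_nonneg fun n => by positivity
  -- the point
  set ε : ℝ := 1 / (3 * (D + 1)) with hε
  have hεpos : 0 < ε := by positivity
  have hε1 : ε ≤ 1 := by
    rw [hε, div_le_one (by positivity)]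
    linarith
  set z : ℂ := (ε : ℂ) + Complex.I with hz
  have hzU : z ∈ U := by
    left
    rw [hz]
    simp
    exact hεpos.ne'
  have hFz : F a z = 0 := h0 hzU
  have h1 := (T_summable ha z).sum_add_tsum_nat_add 1
  rw [Finset.sum_range_one] at h1
  change T a 0 z + ∑' n : ℕ, T a (n + 1) z = F a z at h1
  rw [hFz] at h1
  have h2 : ‖∑' n : ℕ, T a (n + 1) z‖ ≤ D := by
    apply tsum_of_norm_bounded hsum.hasSum
    intro n
    have hn1 : (0 : ℝ) < ((n + 1 : ℕ) : ℝ) + 1 := by positivity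
    rw [T, norm_div, norm_a ha]
    have h3 : 3 / 4 * (((n + 1 : ℕ) : ℝ) + 1) ^ 2 ≤ ‖z ^ 2 + (((n + 1 : ℕ) : ℂ) + 1) ^ 2‖ := by
      refine le_trans ?_ (Complex.re_le_norm _)
      have e1 : (z ^ 2 + (((n + 1 : ℕ) : ℂ) + 1) ^ 2).re =
          ε ^ 2 - 1 + (((n + 1 : ℕ) : ℝ) + 1) ^ 2 := by
        have : (((n + 1 : ℕ) : ℂ) + 1) ^ 2 = (((((n + 1 : ℕ) : ℝ) + 1) ^ 2 : ℝ) : ℂ) := by
          push_cast; ring
        rw [this, Complex.add_re, Complex.ofReal_re, hz, sq, Complex.mul_re]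
        simp
        ring
      rw [e1]
      push_cast
      have : (0 : ℝ) ≤ n := Nat.cast_nonneg n
      nlinarith [sq_nonneg ε]
    rw [div_le_iff₀ (lt_of_lt_of_le (by positivity) h3)]
    have h5 : 4 / 3 * (1 / (((n + 1 : ℕ) : ℝ) + 1) ^ 2) * (3 / 4 * (((n + 1 : ℕ) : ℝ) + 1) ^ 2) = 1 := by
      field_simp
    calc (1 : ℝ) = _ := h5.symm
      _ ≤ _ := mul_le_mul_of_nonneg_left h3 (by positivity)
  have h3 : ‖T a 0 z‖ = ‖∑' n : ℕ, T a (n + 1) z‖ := by
    have : T a 0 z = -∑' n : ℕ, T a (n + 1) z := by linear_combination h1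
    rw [this, norm_neg]
  have h4 : 1 / (3 * ε) ≤ ‖T a 0 z‖ := by
    rw [T, norm_div, norm_a ha]
    apply one_div_le_one_div_of_le
    · apply norm_pos_iff.2
      exact denom_ne hzU 0
    · have e1 : z ^ 2 + (((0 : ℕ) : ℂ) + 1) ^ 2 = (ε : ℂ) * ((ε : ℂ) + 2 * Complex.I) := by
        rw [hz]
        push_cast
        linear_combination Complex.I_mul_I
      rw [e1, norm_mul, Complex.norm_real, Real.norm_eq_abs, abs_of_pos hεpos]
      have : ‖(ε : ℂ) + 2 * Complex.I‖ ≤ 3 := by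
        refine (norm_add_le _ _).trans ?_
        rw [Complex.norm_real, Real.norm_eq_abs, abs_of_pos hεpos, norm_mul, Complex.norm_I]
        norm_num
        linarith
      nlinarith
  have h5 : 1 / (3 * ε) = D + 1 := by
    rw [hε]
    field_simp
  rw [h5, h3] at h4
  linarith

omit ha in
theorem real_mem_U (t : ℝ) : (t : ℂ) ∈ U := by
  right
  simp

theorem zeros_finite (X : ℝ) : {t : ℝ | |t| < X ∧ f a t = 0}.Finite := by
  by_contra hinf
  have hinf' : {t : ℝ | |t| < X ∧ f a t = 0}.Infinite := hinf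
  set S : Set ℂ := (fun t : ℝ => (t : ℂ)) '' {t : ℝ | |t| < X ∧ f a t = 0} with hS
  have hSinf : S.Infinite := hinf'.image (fun x _ y _ h => by exact_mod_cast h)
  set K : Set ℂ := (fun t : ℝ => (t : ℂ)) '' Icc (-X) X with hK
  have hKc : IsCompact K := isCompact_Icc.image Complex.continuous_ofReal
  have hSK : S ⊆ K := by
    rintro _ ⟨t, ⟨ht, -⟩, rfl⟩
    rw [abs_lt] at ht
    exact ⟨t, ⟨ht.1.le, ht.2.le⟩, rfl⟩
  obtain ⟨z₀, hz₀K, hz₀⟩ := hSinf.exists_accPt_of_subset_isCompact hKc hSK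
  have hz₀U : z₀ ∈ U := by
    obtain ⟨t, -, rfl⟩ := hz₀K
    exact real_mem_U t
  apply F_not_zero ha
  apply (F_analytic ha).eqOn_zero_of_preconnected_of_frequently_eq_zero U_preconnected hz₀U
  have h1 := accPt_iff_frequently_nhdsNE.1 hz₀
  refine h1.mono ?_
  rintro _ ⟨t, ⟨-, ht⟩, rfl⟩
  show F a ((t : ℝ) : ℂ) = 0
  rw [F_ofReal, ht]
  simp

/-! ### Boundedness in the half-plane `Re z ≥ 1` -/

omit ha in
theorem denom_bound {z : ℂ} (hz : 1 ≤ z.re) (n : ℕ) :
    ((n : ℝ) + 1) * max 1 |(n : ℝ) + 1 - (abs z.im)| ≤ ‖z ^ 2 + ((n : ℂ) + 1) ^ 2‖ := by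
  set k : ℝ := (n : ℝ) + 1 with hk
  have hkpos : 0 < k := by rw [hk]; positivity
  have e : ((n : ℂ) + 1) ^ 2 = ((k ^ 2 : ℝ) : ℂ) := by rw [hk]; push_cast; ring
  have hd0 : (0 : ℝ) < max 1 |k - (abs z.im)| := lt_max_of_lt_left one_pos
  rw [← sq_le_sq₀ (by positivity) (norm_nonneg _), ← Complex.normSq_eq_norm_sq, e,
    Complex.normSq_apply]
  simp only [Complex.add_re, Complex.add_im, Complex.ofReal_re, Complex.ofReal_im, add_zero,
    sq z, Complex.mul_re, Complex.mul_im]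
  set x := z.re
  set y := z.im
  have h1 : (x * x - y * y + k ^ 2) * (x * x - y * y + k ^ 2) + (x * y + y * x) * (x * y + y * x) =
      (x ^ 2 + (|y| - k) ^ 2) * (x ^ 2 + (|y| + k) ^ 2) := by
    have : |y| ^ 2 = y ^ 2 := sq_abs y
    have e1 : (x ^ 2 + (|y| - k) ^ 2) * (x ^ 2 + (|y| + k) ^ 2) =
        x ^ 4 + x ^ 2 * (2 * |y| ^ 2 + 2 * k ^ 2) + (|y| ^ 2 - k ^ 2) ^ 2 := by ring
    rw [e1, this]
    ring
  rw [h1, mul_pow, mul_comm (k ^ 2)]
  apply mul_le_mul
  · rcases max_cases 1 |k - (abs y)| with ⟨h, -⟩ | ⟨h, -⟩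
    · rw [h]
      nlinarith [sq_nonneg (|y| - k)]
    · rw [h, sq_abs]
      nlinarith [sq_nonneg x]
  · nlinarith [abs_nonneg y, sq_nonneg x, mul_nonneg (abs_nonneg y) hkpos.le]
  · positivity
  · positivity

omit ha in
theorem summable_int : Summable fun k : ℤ => (9 : ℝ) / (1 + |(k : ℝ)|) ^ 2 := by
  have h1 : Summable fun n : ℕ => (9 : ℝ) / (1 + (n : ℝ)) ^ 2 := by
    have := summable_sq.mul_left 9
    refine this.congr fun n => ?_
    rw [add_comm (n : ℝ) 1]
    ring
  apply Summable.of_nat_of_neg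
  · refine h1.congr fun n => ?_
    simp
  · refine h1.congr fun n => ?_
    simp

/-- The uniform bound. -/
noncomputable def Cb : ℝ := 1 / 2 * (∑' n : ℕ, 1 / ((n : ℝ) + 1) ^ 2) +
  1 / 2 * ∑' k : ℤ, (9 : ℝ) / (1 + |(k : ℝ)|) ^ 2

theorem F_bound {z : ℂ} (hz : 1 ≤ z.re) : ‖F a z‖ ≤ Cb := by
  set m : ℤ := ⌊|z.im|⌋ with hm
  have hterm : ∀ n : ℕ, ‖T a n z‖ ≤ 1 / 2 * (1 / ((n : ℝ) + 1) ^ 2) +
      1 / 2 * ((9 : ℝ) / (1 + |(((n : ℤ) + 1 - m : ℤ) : ℝ)|) ^ 2) := by
    intro n
    set d : ℝ := max 1 |(n : ℝ) + 1 - (abs z.im)| with hd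
    have hd0 : 0 < d := lt_max_of_lt_left one_pos
    have hd1 : 1 ≤ d := le_max_left _ _
    have hd2 : |(n : ℝ) + 1 - (abs z.im)| ≤ d := le_max_right _ _
    have hn1 : (0 : ℝ) < (n : ℝ) + 1 := by positivity
    have h1 : ‖T a n z‖ ≤ 1 / (((n : ℝ) + 1) * d) := by
      rw [T, norm_div, norm_a ha]
      exact one_div_le_one_div_of_le (by positivity) (denom_bound hz n)
    have h2 : 1 / (((n : ℝ) + 1) * d) ≤ 1 / 2 * (1 / ((n : ℝ) + 1) ^ 2) + 1 / 2 * (1 / d ^ 2) := by
      have e1 : 1 / (((n : ℝ) + 1) * d) = (1 / ((n : ℝ) + 1)) * (1 / d) := by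
        rw [one_div_mul_one_div]
      have e2 : 1 / ((n : ℝ) + 1) ^ 2 = (1 / ((n : ℝ) + 1)) ^ 2 := by rw [one_div_pow]
      have e3 : 1 / d ^ 2 = (1 / d) ^ 2 := by rw [one_div_pow]
      rw [e1, e2, e3]
      nlinarith [sq_nonneg (1 / ((n : ℝ) + 1) - 1 / d)]
    have h3 : 1 + |(((n : ℤ) + 1 - m : ℤ) : ℝ)| ≤ 3 * d := by
      push_cast
      have f1 : (m : ℝ) ≤ |z.im| := Int.floor_le _
      have f2 : |z.im| < m + 1 := Int.lt_floor_add_one _
      have f3 : |(n : ℝ) + 1 - m| ≤ |(n : ℝ) + 1 - (abs z.im)| + 1 := by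
        have := abs_add_le ((n : ℝ) + 1 - |z.im|) (|z.im| - m)
        rw [sub_add_sub_cancel] at this
        have f4 : |(|z.im| - (m : ℝ))| ≤ 1 := by
          rw [abs_le]
          constructor <;> linarith
        linarith
      linarith
    have h4 : 1 / d ^ 2 ≤ (9 : ℝ) / (1 + |(((n : ℤ) + 1 - m : ℤ) : ℝ)|) ^ 2 := by
      rw [div_le_div_iff₀ (by positivity) (by positivity), one_mul]
      calc (1 + |(((n : ℤ) + 1 - m : ℤ) : ℝ)|) ^ 2 ≤ (3 * d) ^ 2 :=
            pow_le_pow_left₀ (by positivity) h3 2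
        _ = 9 * d ^ 2 := by ring
    linarith
  have hs2 : Summable fun n : ℕ => (9 : ℝ) / (1 + |(((n : ℤ) + 1 - m : ℤ) : ℝ)|) ^ 2 := by
    have := summable_int.comp_injective (i := fun n : ℕ => (n : ℤ) + 1 - m) (by
      intro x y h
      simp only at h
      omega)
    exact this
  have hs : Summable fun n : ℕ => 1 / 2 * (1 / ((n : ℝ) + 1) ^ 2) +
      1 / 2 * ((9 : ℝ) / (1 + |(((n : ℤ) + 1 - m : ℤ) : ℝ)|) ^ 2) :=
    (summable_sq.mul_left _).add (hs2.mul_left _)
  refine (tsum_of_norm_bounded hs.hasSum hterm).trans ?_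
  rw [Summable.tsum_add (summable_sq.mul_left _) (hs2.mul_left _), tsum_mul_left, tsum_mul_left, Cb]
  have h5 : ∑' n : ℕ, (9 : ℝ) / (1 + |(((n : ℤ) + 1 - m : ℤ) : ℝ)|) ^ 2 ≤
      ∑' k : ℤ, (9 : ℝ) / (1 + |(k : ℝ)|) ^ 2 := by
    apply Summable.tsum_le_tsum_of_inj (fun n : ℕ => (n : ℤ) + 1 - m)
    · intro x y h
      simp only at h
      omega
    · intro k _
      positivity
    · intro n
      exact le_rfl
    · exact hs2
    · exact summable_int
  linarith

/-- The Blaschke condition for the zeros. -/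
theorem exists_bound : ∃ t₀ B : ℝ, 1 < t₀ ∧ ∀ J : Finset ℝ, (∀ t ∈ J, t₀ ≤ t ∧ f a t = 0) →
    ∑ t ∈ J, 1 / t ≤ B := by
  -- a point where `f` does not vanish
  obtain ⟨t₀, ht₀, hft₀⟩ : ∃ t₀ : ℝ, t₀ ∈ Ioo (1 : ℝ) 2 ∧ f a t₀ ≠ 0 := by
    by_contra hcon
    push Not at hcon
    have h1 : Ioo (1 : ℝ) 2 ⊆ {t : ℝ | |t| < 2 ∧ f a t = 0} := by
      intro t ht
      refine ⟨?_, hcon t ht⟩
      rw [abs_lt]
      constructor <;> linarith [ht.1, ht.2]
    exact (Ioo_infinite (by norm_num : (1 : ℝ) < 2)) ((zeros_finite ha 2).subset h1)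
  obtain ⟨h1t, -⟩ := ht₀
  set τ : ℝ := t₀ - 1 with hτ
  have hτpos : 0 < τ := by linarith
  set φ : ℂ → ℂ := fun w => 1 + τ * ((1 + w) / (1 - w)) with hφ
  have hne : ∀ w ∈ ball (0 : ℂ) 1, (1 : ℂ) - w ≠ 0 := by
    intro w hw h
    rw [mem_ball_zero_iff] at hw
    have : w = 1 := by linear_combination -h
    rw [this, norm_one] at hw
    exact lt_irrefl _ hw
  have hre : ∀ w ∈ ball (0 : ℂ) 1, 1 ≤ (φ w).re := by
    intro w hw
    have hw1 := hw
    rw [mem_ball_zero_iff] at hw1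
    have h2 : 0 ≤ ((1 + w) / (1 - w)).re := by
      rw [Complex.div_re]
      have h3 : 0 < Complex.normSq (1 - w) := Complex.normSq_pos.2 (hne w hw)
      rw [← add_div]
      apply div_nonneg _ h3.le
      have h4 : Complex.normSq w ≤ 1 := by
        rw [Complex.normSq_eq_norm_sq]
        nlinarith [norm_nonneg w]
      rw [Complex.normSq_apply] at h4
      simp
      nlinarith
    have h5 : (φ w).re = 1 + τ * ((1 + w) / (1 - w)).re := by
      rw [hφ]
      simp
    rw [h5]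
    nlinarith
  set G : ℂ → ℂ := fun w => F a (φ w) with hG
  have hGd : DifferentiableOn ℂ G (ball 0 1) := by
    intro w hw
    apply DifferentiableAt.differentiableWithinAt
    have h1 : DifferentiableAt ℂ φ w := by
      have := hne w hw
      rw [hφ]
      fun_prop (disch := assumption)
    have hU : φ w ∈ U := by
      left
      have := hre w hw
      intro h0
      rw [h0] at this
      linarith
    exact (F_differentiableAt ha hU).comp w h1
  have hGb : ∀ w ∈ ball (0 : ℂ) 1, ‖G w‖ ≤ Cb := fun w hw => F_bound ha (hre w hw)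
  have hG0 : G 0 ≠ 0 := by
    have : φ 0 = (t₀ : ℂ) := by
      rw [hφ, hτ]
      simp
    rw [hG]
    show F a (φ 0) ≠ 0
    rw [this, F_ofReal]
    exact_mod_cast hft₀
  refine ⟨t₀, (1 + τ) / (2 * τ) * Real.log (Cb / ‖G 0‖), h1t, ?_⟩
  intro J hJ
  classical
  -- map the zeros to the disc
  set c : ℝ → ℝ := fun t => (t - t₀) / (t - 1 + τ) with hc
  have hden : ∀ t ∈ J, 0 < t - 1 + τ := by
    intro t ht
    have := (hJ t ht).1
    linarith
  have hcinj : Set.InjOn c J := by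
    intro s hs t ht hst
    have h1 := hden s hs
    have h2 := hden t ht
    simp only [hc] at hst
    rw [div_eq_div_iff h1.ne' h2.ne'] at hst
    have h3 : 2 * τ * (s - t) = 0 := by
      rw [hτ] at hst ⊢
      linear_combination hst
    have h4 : s - t = 0 := by
      rcases mul_eq_zero.1 h3 with h | h
      · linarith
      · exact h
    linarith
  have hsb := Pool.Agent.Q164.BlStep.sum_bound hGd hGb hG0 (J.image c) (by
    intro w hw
    rw [Finset.mem_image] at hw
    obtain ⟨t, ht, rfl⟩ := hw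
    have h1 := hden t ht
    obtain ⟨h2, h3⟩ := hJ t ht
    refine ⟨div_nonneg (by linarith) h1.le, ?_, ?_⟩
    · rw [hc]
      show (t - t₀) / (t - 1 + τ) < 1
      rw [div_lt_one h1]
      linarith
    · have h4 : φ ((c t : ℝ) : ℂ) = (t : ℂ) := by
        rw [hφ]
        show (1 : ℂ) + τ * ((1 + ((c t : ℝ) : ℂ)) / (1 - ((c t : ℝ) : ℂ))) = t
        have h5 : (1 : ℝ) + τ * ((1 + c t) / (1 - c t)) = t := by
          have h6 : 1 - c t = 2 * τ / (t - 1 + τ) := by
            rw [hc]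
            show 1 - (t - t₀) / (t - 1 + τ) = 2 * τ / (t - 1 + τ)
            rw [eq_div_iff h1.ne', sub_mul, div_mul_cancel₀ _ h1.ne', hτ]
            ring
          have h7 : 1 + c t = 2 * (t - 1) / (t - 1 + τ) := by
            rw [hc]
            show 1 + (t - t₀) / (t - 1 + τ) = 2 * (t - 1) / (t - 1 + τ)
            rw [eq_div_iff h1.ne', add_mul, div_mul_cancel₀ _ h1.ne', hτ]
            ring
          rw [h6, h7, div_div_div_cancel_right₀ h1.ne']
          field_simp
          ring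
        have := congrArg (fun x : ℝ => (x : ℂ)) h5
        simpa using this
      show F a (φ ((c t : ℝ) : ℂ)) = 0
      rw [h4, F_ofReal, h3]
      simp)
  rw [Finset.sum_image hcinj] at hsb
  have hle : ∑ t ∈ J, 1 / t ≤ ∑ t ∈ J, (1 + τ) / (2 * τ) * (1 - c t) := by
    apply Finset.sum_le_sum
    intro t ht
    have h1 := hden t ht
    have h2 := (hJ t ht).1
    have h3 : 0 < t := by linarith
    have h6 : 1 - c t = 2 * τ / (t - 1 + τ) := by
      rw [hc]
      show 1 - (t - t₀) / (t - 1 + τ) = 2 * τ / (t - 1 + τ)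
      rw [eq_div_iff h1.ne', sub_mul, div_mul_cancel₀ _ h1.ne', hτ]
      ring
    rw [h6]
    have h7 : (1 + τ) / (2 * τ) * (2 * τ / (t - 1 + τ)) = (1 + τ) / (t - 1 + τ) := by
      field_simp
    rw [h7, div_le_div_iff₀ h3 h1]
    nlinarith
  refine hle.trans ?_
  rw [← Finset.mul_sum]
  exact mul_le_mul_of_nonneg_left hsb (by positivity)

end

theorem f_neg (a : ℕ → ℝ) (t : ℝ) : f a (-t) = f a t := by
  simp [f]

/-- For every sign sequence the number of real zeros in `(-X, X)` is finite and `o(X)`. -/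
theorem result : ∀ a : ℕ → ℝ, (∀ n, 1 ≤ n → a n = 1 ∨ a n = -1) →
    (∀ X : ℝ, {t : ℝ | |t| < X ∧ f a t = 0}.Finite) ∧
      Tendsto (fun X : ℝ => (Z a X : ℝ) / X) atTop (𝓝 0) := by
  classical
  intro a ha
  refine ⟨zeros_finite ha, ?_⟩
  obtain ⟨t₀, B, ht₀, hB⟩ := exists_bound ha
  -- summability over the zeros
  set S : Set ℝ := {t | t₀ ≤ t ∧ f a t = 0} with hS
  have hsum : Summable fun t : S => 1 / (t : ℝ) := by
    apply summable_of_sum_le (c := B)
    · intro t
      have := t.2.1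
      exact div_nonneg zero_le_one (by linarith)
    · intro J
      have h1 := hB (J.map (Function.Embedding.subtype _)) (by
        intro t ht
        rw [Finset.mem_map] at ht
        obtain ⟨s, -, rfl⟩ := ht
        exact s.2)
      rw [Finset.sum_map] at h1
      exact h1
  rw [Metric.tendsto_atTop]
  intro ε hε
  obtain ⟨J₀, hJ₀⟩ := summable_iff_vanishing_norm.1 hsum (ε / 4) (by positivity)
  have hA := zeros_finite ha (t₀ + 1)
  set A : Finset ℝ := hA.toFinset with hAdef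
  set n₀ : ℕ := A.card + J₀.card with hn₀
  refine ⟨max 1 (4 * (n₀ + 1) / ε), fun X hX => ?_⟩
  have hX1 : 1 ≤ X := (le_max_left _ _).trans hX
  have hX2 : 4 * ((n₀ : ℝ) + 1) / ε ≤ X := (le_max_right _ _).trans hX
  have hXpos : 0 < X := by linarith
  -- the zeros
  have hfin := zeros_finite ha X
  set W : Finset ℝ := hfin.toFinset with hW
  have hZ : Z a X = W.card := by
    rw [Z, Set.ncard_eq_toFinset_card _ hfin]
  set P : Finset ℝ := W.filter fun t => 0 ≤ t with hP
  have hWP : W.card ≤ 2 * P.card := by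
    have h1 : W ⊆ P ∪ P.image fun t => -t := by
      intro t ht
      rw [Finset.mem_union, Finset.mem_image]
      rw [hW, Set.Finite.mem_toFinset] at ht
      rcases le_total 0 t with h | h
      · left
        rw [hP, Finset.mem_filter, hW, Set.Finite.mem_toFinset]
        exact ⟨ht, h⟩
      · right
        refine ⟨-t, ?_, neg_neg t⟩
        rw [hP, Finset.mem_filter, hW, Set.Finite.mem_toFinset]
        refine ⟨⟨?_, ?_⟩, by linarith⟩
        · rw [abs_neg]; exact ht.1
        · rw [f_neg]; exact ht.2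
    have h2 := (Finset.card_le_card h1).trans (Finset.card_union_le _ _)
    have h3 : (P.image fun t => -t).card ≤ P.card := Finset.card_image_le
    omega
  -- large zeros outside J₀
  set Q : Finset ℝ := P.filter fun t => t₀ ≤ t ∧ t ∉ J₀.map (Function.Embedding.subtype _) with hQ
  have hPQ : P.card ≤ n₀ + Q.card := by
    have h1 : P ⊆ (A ∪ J₀.map (Function.Embedding.subtype _)) ∪ Q := by
      intro t ht
      have ht' := ht
      rw [hP, Finset.mem_filter, hW, Set.Finite.mem_toFinset] at ht'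
      by_cases h : t₀ ≤ t
      · by_cases h2 : t ∈ J₀.map (Function.Embedding.subtype _)
        · rw [Finset.mem_union, Finset.mem_union]
          exact Or.inl (Or.inr h2)
        · rw [Finset.mem_union]
          right
          rw [hQ, Finset.mem_filter]
          exact ⟨ht, h, h2⟩
      · rw [Finset.mem_union, Finset.mem_union]
        left
        left
        rw [hAdef, Set.Finite.mem_toFinset]
        refine ⟨?_, ht'.1.2⟩
        rw [abs_of_nonneg ht'.2]
        linarith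
    have h2 := (Finset.card_le_card h1).trans (Finset.card_union_le _ _)
    have h3 := Finset.card_union_le A (J₀.map (Function.Embedding.subtype _))
    rw [Finset.card_map] at h3
    omega
  have hQcard : (Q.card : ℝ) ≤ X * (ε / 4) := by
    -- view Q as a finset of S
    have hQS : ∀ t ∈ Q, t ∈ S := by
      intro t ht
      rw [hQ, Finset.mem_filter] at ht
      have h1 := ht.1
      rw [hP, Finset.mem_filter, hW, Set.Finite.mem_toFinset] at h1
      exact ⟨ht.2.1, h1.1.2⟩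
    set Q' : Finset S := Q.subtype (fun t => t ∈ S) with hQ'
    have hdisj : Disjoint Q' J₀ := by
      rw [Finset.disjoint_left]
      intro t ht1 ht2
      rw [hQ', Finset.mem_subtype, hQ, Finset.mem_filter] at ht1
      apply ht1.2.2
      rw [Finset.mem_map]
      exact ⟨t, ht2, rfl⟩
    have h1 := hJ₀ Q' hdisj
    rw [Real.norm_eq_abs] at h1
    have h2 : ∑ t ∈ Q', 1 / (t : ℝ) = ∑ t ∈ Q, 1 / t := by
      rw [← Finset.sum_subtype_of_mem (fun t : ℝ => 1 / t) hQS]
    rw [h2] at h1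
    have h3 : (Q.card : ℝ) * (1 / X) ≤ ∑ t ∈ Q, 1 / t := by
      rw [← nsmul_eq_mul]
      apply Finset.card_nsmul_le_sum
      intro t ht
      have ht0 := hQS t ht
      rw [hQ, Finset.mem_filter, hP, Finset.mem_filter, hW, Set.Finite.mem_toFinset] at ht
      apply one_div_le_one_div_of_le
      · linarith [ht0.1]
      · have := ht.1.1.1
        rw [abs_lt] at this
        linarith [this.2]
    have h4 : (Q.card : ℝ) * (1 / X) ≤ ε / 4 := h3.trans ((le_abs_self _).trans h1.le)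
    have h5 : (Q.card : ℝ) = X * (Q.card * (1 / X)) := by field_simp
    rw [h5]
    exact mul_le_mul_of_nonneg_left h4 hXpos.le
  rw [Real.dist_eq, sub_zero, abs_of_nonneg (by positivity), div_lt_iff₀ hXpos, hZ]
  have h1 : (W.card : ℝ) ≤ 2 * (n₀ + Q.card) := by exact_mod_cast hWP.trans (by omega)
  have h2 : 4 * ((n₀ : ℝ) + 1) ≤ X * ε := by
    rwa [div_le_iff₀ hε] at hX2
  nlinarith

end Pool.Agent.Results.MP_51e19e_an.SublinearZeros
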